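import Pool.Agent.H34.PM.Def

set_option autoImplicit false

namespace Pool.Agent.H34.PM

open Finset Matroid

variable {V E Φ : Type}

private theorem indepOn_option {F W : Type} [Field F] [AddCommGroup W] [Module F W] [Fintype E]
    (u : Option E → W) (I : Set (Option E)) (hI : none ∉ I) :
    LinearIndepOn F u I ↔ ∀ c : E → F, (∀ p, some p ∉ I → c p = 0) →
      ∑ p, c p • u (some p) = 0 → ∀ p, c p = 0 := by
  classical
  rw [linearIndepOn_iff']
  constructor
  · intro h c hc h0 p
    by_cases hp : some p ∈ I
    · have := h (univ.filter (· ∈ I)) (fun o => o.elim 0 c) (fun x hx => by simpa using hx)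
        (by
          rw [Finset.sum_filter, Fintype.sum_option]
          simp only [hI, if_false, zero_add, Option.elim]
          refine Eq.trans ?_ h0
          refine Finset.sum_congr rfl fun q _ => ?_
          by_cases hq : some q ∈ I
          · simp [hq]
          · simp [hq, hc q hq]) (some p) (by simpa using hp)
      exact this
    · exact hc p hp
  · intro h s g hs hg o ho
    have hn : none ∉ s := fun h1 => hI (hs h1)
    rcases o with _ | p
    · exact absurd ho hn
    · have := h (fun q => if some q ∈ s then g (some q) else 0)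
        (fun q hq => if_neg fun h1 => hq (hs h1)) (by
          rw [← hg]
          have e1 : ∑ i ∈ s, g i • u i = ∑ i : Option E, if i ∈ s then g i • u i else 0 := by
            rw [Finset.sum_ite_mem, Finset.univ_inter]
          rw [e1, Fintype.sum_option]
          simp only [hn, if_false, zero_add]
          refine Finset.sum_congr rfl fun q _ => ?_
          by_cases hq : some q ∈ s
          · simp [hq]
          · simp [hq]) p
      simpa [ho] using this

/-- `S` is not split by the edges outside `J`. -/
private def Cond (a b : E → Φ) (I : Set (Option E)) : Prop :=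
  ∀ S : Set Φ, (∀ p, some p ∉ I → (a p ∈ S ↔ b p ∈ S)) → ∀ p, (a p ∈ S ↔ b p ∈ S)

private theorem cond_iff {F : Type} [Field F] (a b : E → Φ) (I : Set (Option E)) :
    Cond a b I ↔ ∀ x : Φ → F, (∀ p, some p ∉ I → x (a p) - x (b p) = 0) →
      ∀ p, x (a p) - x (b p) = 0 := by
  classical
  constructor
  · intro h x hx p
    have := (h {f | x f = x (a p)} (fun q hq => by
      have h1 := sub_eq_zero.1 (hx q hq)
      simp only [Set.mem_ofPred_eq, h1]) p).1 rfl
    rw [Set.mem_ofPred_eq] at this
    rw [this, sub_self]
  · intro h S hS p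
    have := h (fun f => if f ∈ S then 1 else 0) (fun q hq => by
      have h1 := hS q hq
      by_cases h2 : a q ∈ S
      · simp [h2, h1.1 h2]
      · have h3 : b q ∉ S := fun h3 => h2 (h1.2 h3)
        simp [h2, h3]) p
    by_cases h2 : a p ∈ S
    · by_cases h3 : b p ∈ S
      · simp [h2, h3]
      · simp [h2, h3] at this
    · by_cases h3 : b p ∈ S
      · simp [h2, h3] at this
      · simp [h2, h3]

/-- The potential differences. -/
private def pot {F : Type} [Field F] (a b : E → Φ) : (Φ → F) →ₗ[F] (E → F) where
  toFun x := fun p => x (a p) - x (b p)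
  map_add' x y := by ext p; simp only [Pi.add_apply]; ring
  map_smul' r x := by ext p; simp only [Pi.smul_apply, smul_eq_mul, RingHom.id_apply]; ring

private theorem quot_iff {F : Type} [Field F] [Fintype E] [DecidableEq E] (a b : E → Φ) (I : Set (Option E))
    (hI : none ∉ I) (u : Option E → (E → F) ⧸ LinearMap.range (pot (F := F) a b))
    (hu : ∀ p, u (some p) = Submodule.mkQ _ (Function.update (0 : E → F) p 1)) :
    LinearIndepOn F u I ↔ Cond a b I := by
  classical
  rw [indepOn_option u I hI, cond_iff (F := F) a b I]
  have hs : ∀ c : E → F, ∑ p, c p • u (some p) = Submodule.mkQ _ c := by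
    intro c
    simp only [hu, ← map_smul, ← map_sum]
    congr 1
    ext q
    simp only [Finset.sum_apply, Pi.smul_apply, smul_eq_mul]
    rw [Finset.sum_eq_single q]
    · simp
    · intro p _ hpq
      rw [Function.update_of_ne (Ne.symm hpq)]
      simp
    · intro hq
      exact absurd (Finset.mem_univ q) hq
  constructor
  · intro h x hx
    exact h (pot a b x) hx (by
      rw [hs, Submodule.mkQ_apply, Submodule.Quotient.mk_eq_zero]
      exact ⟨x, rfl⟩)
  · intro h c hc h0
    rw [hs, Submodule.mkQ_apply, Submodule.Quotient.mk_eq_zero] at h0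
    obtain ⟨x, rfl⟩ := h0
    exact h x hc

private theorem sum_inc [Fintype Φ] [DecidableEq Φ] {fac : E → Finset Φ} {a b : E → Φ}
    (hne : ∀ p, a p ≠ b p) (hab : ∀ p, fac p = {a p, b p}) (x : Φ → ZMod 2) (p : E) :
    ∑ f, x f * inc fac p f = x (a p) - x (b p) := by
  classical
  have h1 : ∀ f, x f * inc fac p f = if f ∈ ({a p, b p} : Finset Φ) then x f else 0 := by
    intro f
    unfold inc
    rw [hab p]
    by_cases hf : f ∈ ({a p, b p} : Finset Φ)
    · simp [hf]
    · simp [hf]
  simp only [h1]
  rw [Finset.sum_ite_mem, Finset.univ_inter, Finset.sum_pair (hne p)]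
  have : ∀ u v : ZMod 2, u + v = u - v := by decide
  exact this _ _

/-- The deletion of `e` is regular, from the description of the cycles of signature 0. -/
theorem big_delete_regular_of [Fintype V] [Fintype E] [Fintype Φ]
    {vtx : E → Finset V} {fac : E → Finset Φ} (h : IsMap vtx fac) {w : E → ZMod 2}
    (hw : Sig vtx fac w)
    (hcyc : ∀ c : E → ZMod 2, IsCyc vtx c → ∑ p, c p * w p = 0 →
      ∃ x : Φ → ZMod 2, ∀ p, c p = ∑ f, x f * inc fac p f) :
    Regular ((big vtx w) ＼ {none}) := by
  classical
  have h2 : ∀ p, ∃ a b, a ≠ b ∧ fac p = {a, b} := fun p => Finset.card_eq_two.1 (h.two_faces p)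
  choose a b hne hab using h2
  intro F _
  refine ⟨(E → F) ⧸ LinearMap.range (pot (F := F) a b), inferInstance, inferInstance,
    fun o => o.elim 0 (fun p => Submodule.mkQ _ (Function.update (0 : E → F) p 1)), ?_⟩
  intro I hI
  have hn : none ∉ I := by
    intro h1
    have := hI h1
    simp at this
  rw [quot_iff a b I hn _ (fun p => rfl)]
  rw [Matroid.delete_indep_iff]
  have hd : Disjoint I {none} := by
    rw [Set.disjoint_singleton_right]
    exact hn
  have e1 : (big vtx w).Indep I ↔ LinearIndepOn (ZMod 2) (ext vtx w) I := lin_indep _ _ _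
  rw [e1, indepOn_option (ext vtx w) I hn, cond_iff (F := ZMod 2) a b I]
  constructor
  · rintro ⟨h1, -⟩ x hx
    have h3 := h1 (fun p => x (a p) - x (b p)) hx ?_
    · exact h3
    · have hz : ∀ p, x (a p) - x (b p) = ∑ f, x f * inc fac p f := fun p =>
        (sum_inc hne hab x p).symm
      simp only [hz]
      refine Prod.ext ?_ ?_
      · ext v
        simp only [Prod.fst_sum, Prod.smul_fst, ext, Finset.sum_apply, Pi.smul_apply, smul_eq_mul,
          Prod.fst_zero, Pi.zero_apply, Finset.sum_mul]
        rw [Finset.sum_comm]
        refine Finset.sum_eq_zero fun f _ => ?_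
        have h5 := h.face_isCyc f v
        calc ∑ p, x f * inc fac p f * inc vtx p v
            = x f * ∑ p, inc fac p f * inc vtx p v := by
              rw [Finset.mul_sum]
              exact Finset.sum_congr rfl fun p _ => by ring
          _ = 0 := by rw [h5, mul_zero]
      · simp only [Prod.snd_sum, Prod.smul_snd, ext, smul_eq_mul, Prod.snd_zero, Finset.sum_mul]
        rw [Finset.sum_comm]
        refine Finset.sum_eq_zero fun f _ => ?_
        have h5 := hw.face f
        calc ∑ p, x f * inc fac p f * w p
            = x f * ∑ p, inc fac p f * w p := by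
              rw [Finset.mul_sum]
              exact Finset.sum_congr rfl fun p _ => by ring
          _ = 0 := by rw [h5, mul_zero]
  · intro h1
    refine ⟨fun c hc h0 => ?_, hd⟩
    have hc1 : IsCyc vtx c := by
      intro v
      have := congrFun (congrArg Prod.fst h0) v
      simpa only [Prod.fst_sum, Prod.smul_fst, ext, Finset.sum_apply, Pi.smul_apply, smul_eq_mul,
          Prod.fst_zero, Pi.zero_apply] using this
    have hc2 : ∑ p, c p * w p = 0 := by
      have := congrArg Prod.snd h0
      simpa only [Prod.snd_sum, Prod.smul_snd, ext, smul_eq_mul, Prod.snd_zero] using this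
    obtain ⟨x, hx⟩ := hcyc c hc1 hc2
    have hx' : ∀ p, c p = x (a p) - x (b p) := fun p => (hx p).trans (sum_inc hne hab x p)
    intro p
    rw [hx' p]
    exact h1 x (fun q hq => by rw [← hx' q]; exact hc q hq) p

end Pool.Agent.H34.PM
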